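import Pool.Agent.X305.WM.LocMain

/-!
# Conductors decide local-global compatibility

Let `Π` be an algebraic cuspidal automorphic representation of `GL_n`, `M` a motive, `p ≠ l` primes, and suppose that
the Weil-Deligne representations `V` of `Π_p` (suitably twisted) and `V'` of the `l`-adic realisation of `M` at `p`
have the same semisimplification (as representations of the Weil group, without `N`). Condition (2) of the problem for
`p`, `l` says that they have the same Frobenius semisimplification (with `N`).

The inertia group `I` acts on `V` and `V'` through a finite quotient. For an irreducible representation `τ` of `I` let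
`V_τ = Hom_I (τ, V)`. Let `τ_j`, `j` in the finite set `J`, represent the orbits of the Weil group on the `τ` that
occur, `f j` the number of elements of the orbit. Then `V` is determined by the spaces `W j = V_{τ_j}` with a suitable
extension `F` of the `f j`-th power of Frobenius and with the operator `N`, `N F = q ^ (f j) F N`, `q = p`; `W' j`
for `V'` likewise. Since `Π_p` is generic, there are no nonzero homomorphisms of `V` to its Tate twist `V (1)`. The
dimension of the invariants of the inertia group (the kernel of `N` on the `I`-invariants) of `V ⊗ V^*` is the sum of
`f j * dim ker (N | End (W j))`, and the conductor exponent is a number that depends only on the representation of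
`I`, minus this dimension.

**Theorem.** (1) The kernel of `N ^ k` on `W' j` is at least as large as that on `W j`.
(2) The conductor exponent of `M ⊗ M^*` at `p` is at most that of `Π × Π^*`.
(3) They are equal if and only if condition (2) of the problem is true for `p` and `l`.

So the compatibility with the monodromy operators is a statement about one number.

The proof: the space `W j` is a sum of chains of generalized eigenvectors; since there are no homomorphisms to the
twist, no two chains are linked (Zelevinsky), and the number of the chains through the eigenvalues `b, ..., b / q ^ k` is
the smallest of the multiplicities of these eigenvalues, so the ranks of `N ^ k` on all generalized eigenspaces are as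
large as possible. The dimension of the centralizer of `N` is the sum of the squares of the numbers of the chains of
length `> k`, and decreases strictly when the ranks increase. If the ranks on all generalized eigenspaces agree then
so do the numbers of the chains with given eigenvalues.
-/

set_option autoImplicit false

universe u

namespace Pool.Agent.Results.MP_7742d9_nt.ConductorsDecideCompatibility

open Module Polynomial Pool.Agent.X268.WM Pool.Agent.X305.WM

/-- **Conductors decide local-global compatibility.** -/
theorem result {q : ℕ} (hq : 1 < q) {Ω : Type} [Field Ω] [CharZero Ω] [IsAlgClosed Ω]
    -- the orbits of inertial types and their lengths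
    {J : Type} [Fintype J] (f : J → ℕ) (hf : ∀ j, 0 < f j)
    -- the spaces for `Π` and for the motive, and the spaces of their endomorphisms
    (W W' A A' : ∀ j, FN.{u} Ω (q ^ f j)) (hA : ∀ j, IsEndOf (A j) (W j))
    (hA' : ∀ j, IsEndOf (A' j) (W' j))
    -- the eigenvalues of Frobenius are Weil numbers of some weights
    (hmix : ∀ j, (W j).IsMixed)
    -- compatibility up to semisimplification
    (hcp : ∀ j, SameEigenvalues (W j) (W' j))
    -- `Π` is generic
    (hgen : ∀ j, NoTwistedEndomorphism (W j)) :
    (∀ j k, nullity (W j) k ≤ nullity (W' j) k) ∧ totalKer f A ≤ totalKer f A' ∧
      (totalKer f A' = totalKer f A ↔ ∀ j, FssIso (W j) (W' j)) := by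
  have hc := fun j => compatibility (Nat.one_lt_pow (hf j).ne' hq) (hA j) (hA' j) (hmix j) (hcp j)
    (hgen j)
  have hle : ∀ j ∈ Finset.univ, f j * kerDim (A j) ≤ f j * kerDim (A' j) :=
    fun j _ => Nat.mul_le_mul_left _ (hc j).2.1
  refine ⟨fun j k => (hc j).1 k, Finset.sum_le_sum hle, ?_⟩
  constructor
  · intro h j
    have h1 := (Finset.sum_eq_sum_iff_of_le hle).1 h.symm j (Finset.mem_univ _)
    exact (hc j).2.2.1 (Nat.eq_of_mul_eq_mul_left (hf j) h1).symm
  · intro h
    exact Finset.sum_congr rfl fun j _ => by rw [(hc j).2.2.2 (h j)]

end Pool.Agent.Results.MP_7742d9_nt.ConductorsDecideCompatibility
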