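import Pool.Agent.X320.IA.Main
import Pool.Agent.X320.IA.Mono

/-!
# Algebraic cuspidal representations which are supersingular at a positive proportion of the primes

Let `Π` be a regular algebraic cuspidal automorphic representation of `GL_n(𝔸)` and `ρ : G_ℚ → GL_n(ℚ̄_ℓ)` its
Galois representation, which exists by Harris-Lan-Taylor-Thorne and Scholze. It is only known to correspond to `Π` up
to semisimplification of the Frobenius elements. Call `Π` supersingular at an unramified prime `p` if the quotients of
the Satake parameters of `Π_p` are roots of unity. We prove (over all number fields):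

if the supersingular primes have positive upper density, then `ρ` is abelian on an open subgroup; and if `ρ` is
irreducible and regular, then it is induced from a character of the Galois group of a field of degree `n`.

By the theorems of Waldschmidt and Henniart this character belongs to an algebraic Hecke character. So the motive
required by Clozel's conjecture is the motive of an algebraic Hecke character, induced to `ℚ`: the conjecture
holds for these `Π`; and for all other regular algebraic `Π` the supersingular primes have density zero.

Proof. (1) For all elements `x` of the Galois group outside a closed set of measure zero `ρ (x)` is semisimple. So in the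
hypothesis the condition that the quotients of the eigenvalues are roots of unity means that a power of the matrix is
scalar. (2) Let `N` be an exponent. The elements with a scalar `N`-th power contain a coset of an open subgroup
(noetherian descent), and the Lie algebra of this subgroup has an automorphism of finite order for which the sums over
the orbits are scalar; so it is solvable by Kreknin's theorem, and abelian as `ρ` is semisimple.
(3) The lines of eigenvectors of an open normal subgroup `U` with abelian image are permuted transitively by `G_K`.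
-/

set_option autoImplicit false

namespace Pool.Agent.Results.MP_7742d9_nt.SupersingularPrimes

open NumberField IsDedekindDomain Filter Matrix Polynomial
open Pool.Agent.W401.Cheb (GK IsFrob dens)

/-- representations of `G_K` by `n × n` matrices over an algebraic closure of `ℚ_ℓ` -/
noncomputable abbrev Rep (K : Type) [Field K] (ℓ : ℕ) [Fact ℓ.Prime] (n : ℕ) : Type := GK K →* GL (Fin n) (PadicAlgCl ℓ)

/-- the matrix of `g` -/
noncomputable abbrev mat {K : Type} [Field K] {ℓ : ℕ} [Fact ℓ.Prime] {n : ℕ} (ρ : Rep K ℓ n) (g : GK K) :
    Matrix (Fin n) (Fin n) (PadicAlgCl ℓ) := (ρ g : Matrix (Fin n) (Fin n) (PadicAlgCl ℓ))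

section

variable {K : Type} [Field K] {ℓ : ℕ} [Fact ℓ.Prime] {n : ℕ} (ρ : Rep K ℓ n)

/-- the subspace `S` is stable under the representation -/
def Stable (S : Submodule (PadicAlgCl ℓ) (Fin n → PadicAlgCl ℓ)) : Prop := ∀ g, ∀ s ∈ S, mat ρ g *ᵥ s ∈ S

/-- `ρ` is semisimple: every stable subspace has a stable complement -/
def Semisimple : Prop := ∀ S, Stable ρ S → ∃ S', Stable ρ S' ∧ IsCompl S S'

/-- `ρ` is irreducible -/
def Irreducible : Prop := 0 < n ∧ ∀ S, Stable ρ S → S = ⊥ ∨ S = ⊤

/-- `ρ` is regular: every open subgroup contains an element with `n` different eigenvalues. This is so if `ρ` is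
de Rham with `n` different Hodge-Tate weights at an embedding. -/
def Regular : Prop := ∀ H : Subgroup (GK K), IsOpen (H : Set (GK K)) → ∃ h ∈ H, (mat ρ h).charpoly.Separable

/-- the quotients of the eigenvalues of the matrix are roots of unity -/
def Supersingular (X : Matrix (Fin n) (Fin n) (PadicAlgCl ℓ)) : Prop :=
  ∀ a b, X.charpoly.IsRoot a → X.charpoly.IsRoot b → ∃ m : ℕ, 0 < m ∧ a ^ m = b ^ m

/-- `ρ` is abelian on an open normal subgroup -/
def PotentiallyAbelian : Prop :=
  ∃ U : Subgroup (GK K), U.Normal ∧ IsOpen (U : Set (GK K)) ∧ ∀ u ∈ U, ∀ w ∈ U, ρ u * ρ w = ρ w * ρ u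

/-- There are an open subgroup `H` of index `n = dim ρ` and a line stable under `H`. If `ρ` is irreducible, then it is
induced from the character of `H` on this line. -/
def Monomial : Prop :=
  ∃ H : Subgroup (GK K), IsOpen (H : Set (GK K)) ∧ H.index = n ∧ ∃ v : Fin n → PadicAlgCl ℓ, v ≠ 0 ∧
    ∀ h ∈ H, ∃ c : PadicAlgCl ℓ, mat ρ h *ᵥ v = c • v

end

/-- Let `ρ : G_K → GL_n(ℚ̄_ℓ)` be continuous and semisimple. Suppose that for the places `v` in a set of positive
upper density (the proportion of these places among the places of norm at most `N` is at least a fixed `δ > 0` for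
arbitrarily large `N`) the quotients of the eigenvalues of all Frobenius elements at `v` are roots of unity. Then `ρ` is
potentially abelian. If moreover `ρ` is irreducible and regular, then it is induced from a character of an open
subgroup of index `n`. -/
theorem result (K : Type) [Field K] [NumberField K] (ℓ : ℕ) [Fact ℓ.Prime] (n : ℕ) (ρ : Rep K ℓ n)
    (hρ : Continuous ρ) (hss : Semisimple ρ) (δ : ℝ) (hδ : 0 < δ)
    (h : ∃ᶠ N in atTop, δ ≤ dens (fun v : HeightOneSpectrum (𝓞 K) => ∀ σ, IsFrob v σ → Supersingular (mat ρ σ)) N) :
    PotentiallyAbelian ρ ∧ (Irreducible ρ → Regular ρ → Monomial ρ) := by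
  obtain ⟨U, hUn, hUo, hU⟩ := Pool.Agent.X320.IA.potentially_abelian ρ hρ hss hδ _ h
    (fun v hv σ hσ a b ha hb => hv σ hσ a b ha hb)
  refine ⟨⟨U, hUn, hUo, fun u hu w hw => ?_⟩, fun hirr hreg => ?_⟩
  · rw [← map_mul, ← map_mul, hU u hu w hw]
  · obtain ⟨u₀, hu₀, hsep⟩ := hreg U hUo
    obtain ⟨H, hUH, hidx, v, hv, hH⟩ := Pool.Agent.X320.IA.monomial ρ hirr.1 hirr.2 hUn hU hu₀ hsep
    exact ⟨H, Subgroup.isOpen_mono hUH hUo, hidx, v, hv, hH⟩

end Pool.Agent.Results.MP_7742d9_nt.SupersingularPrimes
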